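import Pool.Agent.H849Z.Conv.Main

namespace Pool.Agent.Results.MP_462f25_al.ACocompact

open Pool.Agent.H849Z.Conv

/-- A hyperbolic group `G` acts as a convergence group on a compact metrizable space `X`, and
`Λ` is a compact invariant subset equivariantly homeomorphic to the Gromov boundary of `G`. Then
the complement of `Λ` is the union of the translates of a compact subset `K` of it. -/
theorem result {G : Type*} [Group G] (S : Set G) (hS : HypGen S)
    {X : Type*} [TopologicalSpace X] [CompactSpace X] [TopologicalSpace.MetrizableSpace X]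
    [MulAction G X] [ContinuousConstSMul G X] (hconv : IsConvergenceAction G X)
    (Λ : Set X) (hΛ : IsCompact Λ) (hinv : ∀ g : G, ∀ x ∈ Λ, g • x ∈ Λ)
    (φ : Bdry S ≃ₜ Λ)
    (hφ : ∀ (g : G) (x y : GSeq S), (∀ n, y.1 n = g * x.1 n) →
      (φ y.lim : X) = g • (φ x.lim : X)) :
    ∃ K : Set X, IsCompact K ∧ K ⊆ Λᶜ ∧ Λᶜ = {x | ∃ g : G, ∃ k ∈ K, x = g • k} := by
  obtain ⟨hf, hg, δ, hδ⟩ := hS
  letI := TopologicalSpace.metrizableSpaceMetric X
  obtain ⟨K, h1, h2, h3⟩ := cocompact ⟨hf, hg, hδ⟩ hconv Λ hΛ hinv φ hφ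
  refine ⟨K, h1, h2, Set.Subset.antisymm h3 ?_⟩
  rintro x ⟨g, k, hk, rfl⟩ hx
  have := hinv g⁻¹ _ hx
  rw [inv_smul_smul] at this
  exact h2 hk this

end Pool.Agent.Results.MP_462f25_al.ACocompact
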